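import Pool.Agent.helper52.T1.SpecF

/-!
# Row PSL of project T1 (MP_07c750_an): smoothness of `Ps`
-/

set_option autoImplicit false

open scoped MatrixGroups ContDiff Topology UpperHalfPlane ComplexConjugate
open UpperHalfPlane MeasureTheory Filter Set

namespace Pool.Agent.T1

open Pool.Agent.RS Pool.Agent.MS Pool.Agent.HV
open Pool.Agent.EN (XG MG mkX mkM fl pr)

noncomputable section

theorem PSL_one {ι : Type} [Fintype ι] [DecidableEq ι] (x : ι → ℝ) : ∑ p : ι → Bool, ∏ j, (if p j = true then x j else 1 - x j) = 1 := by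
  have h := Finset.prod_univ_sum (fun _ : ι => (Finset.univ : Finset Bool)) (fun j b => if b = true then x j else 1 - x j)
  rw [Fintype.piFinset_univ] at h
  rw [← h]
  apply Finset.prod_eq_one
  intro j _
  rw [Fintype.sum_bool]
  simp

theorem PSL_nn {ι : Type} (T : Finset ι) (x : ι → ℝ) (hx : ∀ i, 0 ≤ x i ∧ x i ≤ 1) (p : ι → Bool) : 0 ≤ ∏ j ∈ T, (if p j = true then x j else 1 - x j) := by
  apply Finset.prod_nonneg
  intro j _
  split_ifs
  · exact (hx j).1
  · linarith [(hx j).2]

theorem PSL_le {ι : Type} [Fintype ι] [DecidableEq ι] (x : ι → ℝ) (hx : ∀ i, 0 ≤ x i ∧ x i ≤ 1) (S : Finset (ι → Bool)) :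
    0 ≤ ∑ p ∈ S, ∏ j, (if p j = true then x j else 1 - x j) ∧ ∑ p ∈ S, ∏ j, (if p j = true then x j else 1 - x j) ≤ 1 := by
  refine ⟨Finset.sum_nonneg fun p _ => PSL_nn _ x hx p, ?_⟩
  exact (Finset.sum_le_sum_of_subset_of_nonneg (Finset.subset_univ S) fun p _ _ => PSL_nn _ x hx p).trans (PSL_one x).le

theorem PSL_der {ι : Type} [Fintype ι] [DecidableEq ι] (x : ι → ℝ) (hx : ∀ i, 0 ≤ x i ∧ x i ≤ 1) (S : Finset (ι → Bool)) (i : ι) :
    |∑ p ∈ S, (∏ j ∈ Finset.univ.erase i, (if p j = true then x j else 1 - x j)) * (if p i = true then 1 else -1)| ≤ 1 := by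
  have key : ∀ (c : ℝ), 0 ≤ c → c ≤ 1 → 0 ≤ ∑ p ∈ S, (∏ j ∈ Finset.univ.erase i, (if p j = true then x j else 1 - x j)) * (if p i = true then c else 1 - c) ∧
      ∑ p ∈ S, (∏ j ∈ Finset.univ.erase i, (if p j = true then x j else 1 - x j)) * (if p i = true then c else 1 - c) ≤ 1 := by
    intro c hc0 hc1
    have h := PSL_le (Function.update x i c) (by
      intro j
      rcases eq_or_ne j i with h1 | h1
      · subst h1
        rw [Function.update_self]
        exact ⟨hc0, hc1⟩
      · rw [Function.update_of_ne h1]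
        exact hx j) S
    have h2 : ∀ p : ι → Bool, ∏ j, (if p j = true then Function.update x i c j else 1 - Function.update x i c j) =
        (∏ j ∈ Finset.univ.erase i, (if p j = true then x j else 1 - x j)) * (if p i = true then c else 1 - c) := by
      intro p
      rw [← Finset.prod_erase_mul Finset.univ _ (Finset.mem_univ i), Function.update_self]
      congr 1
      apply Finset.prod_congr rfl
      intro j hj
      rw [Function.update_of_ne (Finset.ne_of_mem_erase hj)]
    simp only [h2] at h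
    exact h
  have h1 := key 1 (by norm_num) (by norm_num)
  have h0 := key 0 (by norm_num) (by norm_num)
  have h3 : ∑ p ∈ S, (∏ j ∈ Finset.univ.erase i, (if p j = true then x j else 1 - x j)) * (if p i = true then (1 : ℝ) else -1) =
      ∑ p ∈ S, (∏ j ∈ Finset.univ.erase i, (if p j = true then x j else 1 - x j)) * (if p i = true then (1 : ℝ) else 1 - 1) -
      ∑ p ∈ S, (∏ j ∈ Finset.univ.erase i, (if p j = true then x j else 1 - x j)) * (if p i = true then (0 : ℝ) else 1 - 0) := by
    rw [← Finset.sum_sub_distrib]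
    apply Finset.sum_congr rfl
    intro p _
    rw [← mul_sub]
    congr 1
    split_ifs <;> norm_num
  rw [h3, abs_le]
  constructor <;> linarith [h1.1, h1.2, h0.1, h0.2]

/-- the derivative of the sum of products -/
theorem PSL_hd {ι : Type} [Fintype ι] [DecidableEq ι] (S : Finset (ι → Bool)) (f : ι → ℝ → ℝ) (f' : ι → ℝ) (h : ∀ i, HasDerivAt (f i) (f' i) 0) :
    HasDerivAt (fun t => ∑ p ∈ S, ∏ j, (if p j = true then f j t else 1 - f j t))
      (∑ p ∈ S, ∑ i, (∏ j ∈ Finset.univ.erase i, (if p j = true then f j 0 else 1 - f j 0)) * (if p i = true then f' i else -f' i)) 0 := by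
  apply HasDerivAt.fun_sum
  intro p _
  have h1 := HasDerivAt.fun_finsetProd (u := Finset.univ) (f := fun j t => if p j = true then f j t else 1 - f j t) (f' := fun i => if p i = true then f' i else -f' i) (x := 0) (by
    intro i _
    by_cases h2 : p i = true
    · simp only [if_pos h2]
      exact h i
    · simp only [if_neg h2]
      exact (h i).const_sub 1)
  simpa only [smul_eq_mul] using h1

theorem PSL_bd {ι : Type} [Fintype ι] [DecidableEq ι] (S : Finset (ι → Bool)) (x : ι → ℝ) (f' : ι → ℝ) (hx : ∀ i, 0 ≤ x i ∧ x i ≤ 1) :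
    |∑ p ∈ S, ∑ i, (∏ j ∈ Finset.univ.erase i, (if p j = true then x j else 1 - x j)) * (if p i = true then f' i else -f' i)| ≤ ∑ i, |f' i| := by
  rw [Finset.sum_comm]
  refine (Finset.abs_sum_le_sum_abs _ _).trans (Finset.sum_le_sum fun i _ => ?_)
  have h1 : ∑ p ∈ S, (∏ j ∈ Finset.univ.erase i, (if p j = true then x j else 1 - x j)) * (if p i = true then f' i else -f' i) =
      (∑ p ∈ S, (∏ j ∈ Finset.univ.erase i, (if p j = true then x j else 1 - x j)) * (if p i = true then 1 else -1)) * f' i := by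
    rw [Finset.sum_mul]
    apply Finset.sum_congr rfl
    intro p _
    rw [mul_assoc]
    congr 1
    split_ifs <;> ring
  rw [h1, abs_mul]
  calc _ ≤ 1 * |f' i| := mul_le_mul_of_nonneg_right (PSL_der x hx S i) (abs_nonneg _)
    _ = |f' i| := one_mul _

theorem PSL_inv {ι : Type} [Fintype ι] [DecidableEq ι] {Γ : Subgroup SL(2, ℝ)} (S : Finset (ι → Bool)) (f : ι → SL(2, ℝ) → ℝ) (f' : ι → SL(2, ℝ) → ℝ) (h : ∀ i, InvG Γ (f i)) (h' : ∀ i, InvG Γ (f' i)) :
    InvG Γ (fun g => ∑ p ∈ S, ∑ i, (∏ j ∈ Finset.univ.erase i, (if p j = true then f j g else 1 - f j g)) * (if p i = true then f' i g else -f' i g)) := by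
  constructor
  · refine continuous_finsetSum _ fun p _ => continuous_finsetSum _ fun i _ => Continuous.mul (continuous_finsetProd _ fun j _ => ?_) ?_
    · by_cases h2 : p j = true
      · simp only [if_pos h2]
        exact (h j).1
      · simp only [if_neg h2]
        exact continuous_const.sub (h j).1
    · by_cases h2 : p i = true
      · simp only [if_pos h2]
        exact (h' i).1
      · simp only [if_neg h2]
        exact (h' i).1.neg
  · intro γ g
    simp only [(h _).2 γ g, (h' _).2 γ g]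

theorem PSL_inv0 {ι : Type} [Fintype ι] {Γ : Subgroup SL(2, ℝ)} (S : Finset (ι → Bool)) (f : ι → SL(2, ℝ) → ℝ) (h : ∀ i, InvG Γ (f i)) :
    InvG Γ (fun g => ∑ p ∈ S, ∏ j, (if p j = true then f j g else 1 - f j g)) := by
  constructor
  · refine continuous_finsetSum _ fun p _ => continuous_finsetProd _ fun j _ => ?_
    by_cases h2 : p j = true
    · simp only [if_pos h2]
      exact (h j).1
    · simp only [if_neg h2]
      exact continuous_const.sub (h j).1
  · intro γ g
    simp only [(h _).2 γ g]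

theorem PSL_g1 (N0 M : ℕ) (hN : 2 ≤ N0) : ∑ i ∈ Finset.range M, Real.exp (-((i : ℕ) * Real.log N0)) ≤ 2 := by
  have hp : (0 : ℝ) < N0 := by
    have : 0 < N0 := by omega
    exact_mod_cast this
  have hN' : (2 : ℝ) ≤ N0 := by exact_mod_cast hN
  refine le_trans (Finset.sum_le_sum fun i _ => ?_) (sum_geometric_two_le M)
  have h1 : Real.exp (-((i : ℕ) * Real.log N0)) = (1 / (N0 : ℝ)) ^ i := by
    rw [← mul_neg, Real.exp_nat_mul, Real.exp_neg, Real.exp_log hp, one_div]
  rw [h1]
  exact pow_le_pow_left₀ (by positivity) (one_div_le_one_div_of_le (by norm_num) hN') i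

theorem PSL_g2 (N0 M : ℕ) (hN : 2 ≤ N0) : ∑ i ∈ Finset.range M, Real.exp ((i : ℕ) * Real.log N0) * N0 ≤ 2 * (N0 : ℝ) ^ M := by
  have hp : (0 : ℝ) < N0 := by
    have : 0 < N0 := by omega
    exact_mod_cast this
  have hN' : (2 : ℝ) ≤ N0 := by exact_mod_cast hN
  induction M with
  | zero => simp
  | succ m ih =>
    rw [Finset.sum_range_succ]
    have h1 : Real.exp ((m : ℕ) * Real.log N0) * N0 = (N0 : ℝ) ^ (m + 1) := by
      rw [Real.exp_nat_mul, Real.exp_log hp, pow_succ]
    rw [h1]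
    have h2 : 2 * (N0 : ℝ) ^ m ≤ (N0 : ℝ) ^ (m + 1) := by
      rw [pow_succ, mul_comm]
      exact mul_le_mul_of_nonneg_left hN' (by positivity)
    linarith

theorem PSL_proof (h : IR.SFP_stmt) : PSL_stmt := by
  intro Γ κ κa κn κl Cκ N0 M S hSF h01 hn hl hN hC
  have hsf : ∀ i : Fin M, _ := fun i => (h Γ κ κa κn κl hSF).2.2 ((i : ℕ) * Real.log N0)
  have hx : ∀ g (i : Fin M), 0 ≤ κ (g * aM ((i : ℕ) * Real.log N0)) ∧ κ (g * aM ((i : ℕ) * Real.log N0)) ≤ 1 := fun g i => h01 _
  refine ⟨⟨fun g => ∑ p ∈ S, ∑ i, (∏ j ∈ Finset.univ.erase i, (if p j = true then κ (g * aM ((j : ℕ) * Real.log N0)) else 1 - κ (g * aM ((j : ℕ) * Real.log N0)))) *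
      (if p i = true then κa (g * aM ((i : ℕ) * Real.log N0)) else -κa (g * aM ((i : ℕ) * Real.log N0))),
    fun g => ∑ p ∈ S, ∑ i, (∏ j ∈ Finset.univ.erase i, (if p j = true then κ (g * aM ((j : ℕ) * Real.log N0)) else 1 - κ (g * aM ((j : ℕ) * Real.log N0)))) *
      (if p i = true then Real.exp (-((i : ℕ) * Real.log N0)) * κn (g * aM ((i : ℕ) * Real.log N0)) else -(Real.exp (-((i : ℕ) * Real.log N0)) * κn (g * aM ((i : ℕ) * Real.log N0)))),
    fun g => ∑ p ∈ S, ∑ i, (∏ j ∈ Finset.univ.erase i, (if p j = true then κ (g * aM ((j : ℕ) * Real.log N0)) else 1 - κ (g * aM ((j : ℕ) * Real.log N0)))) *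
      (if p i = true then Real.exp ((i : ℕ) * Real.log N0) * κl (g * aM ((i : ℕ) * Real.log N0)) else -(Real.exp ((i : ℕ) * Real.log N0) * κl (g * aM ((i : ℕ) * Real.log N0)))),
    ⟨?_, ?_, ?_, ?_, ?_, ?_, ?_⟩, ?_, ?_⟩, ?_, ?_⟩
  · exact PSL_inv0 S _ fun i => (hsf i).i0
  · exact PSL_inv S _ _ (fun i => (hsf i).i0) (fun i => (hsf i).ia)
  · exact PSL_inv S _ _ (fun i => (hsf i).i0) (fun i => (hsf i).i1)
  · exact PSL_inv S _ _ (fun i => (hsf i).i0) (fun i => (hsf i).il)
  · intro g
    have h1 := PSL_hd S _ _ (fun i => (hsf i).da g)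
    have h2 : g * aM 0 = g := by
      have : aM 0 = 1 := by
        ext i j; fin_cases i <;> fin_cases j <;> simp [aM]
      rw [this, mul_one]
    simp only [h2] at h1
    exact h1
  · intro g
    have h1 := PSL_hd S _ _ (fun i => (hsf i).dn g)
    have h2 : g * nM 0 = g := by
      have : nM 0 = 1 := by
        ext i j; fin_cases i <;> fin_cases j <;> simp [nM]
      rw [this, mul_one]
    simp only [h2] at h1
    exact h1
  · intro g
    have h1 := PSL_hd S _ _ (fun i => (hsf i).dl g)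
    have h2 : g * lM 0 = g := by
      have : lM 0 = 1 := by
        ext i j; fin_cases i <;> fin_cases j <;> simp [lM]
      rw [this, mul_one]
    simp only [h2] at h1
    exact h1
  · intro g
    refine (PSL_bd S _ _ (hx g)).trans ?_
    calc ∑ i : Fin M, |Real.exp (-((i : ℕ) * Real.log N0)) * κn (g * aM ((i : ℕ) * Real.log N0))|
        ≤ ∑ i : Fin M, Real.exp (-((i : ℕ) * Real.log N0)) * Cκ := by
          refine Finset.sum_le_sum fun i _ => ?_
          rw [abs_mul, abs_of_pos (Real.exp_pos _)]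
          exact mul_le_mul_of_nonneg_left (hn _) (Real.exp_pos _).le
      _ = (∑ i ∈ Finset.range M, Real.exp (-((i : ℕ) * Real.log N0))) * Cκ := by
          rw [← Finset.sum_mul, Fin.sum_univ_eq_sum_range (fun i : ℕ => Real.exp (-((i : ℕ) * Real.log N0)))]
      _ ≤ 2 * Cκ := mul_le_mul_of_nonneg_right (PSL_g1 N0 M hN) hC
  · intro g
    refine (PSL_bd S _ _ (hx g)).trans ?_
    calc ∑ i : Fin M, |Real.exp ((i : ℕ) * Real.log N0) * κl (g * aM ((i : ℕ) * Real.log N0))|
        ≤ ∑ i : Fin M, Real.exp ((i : ℕ) * Real.log N0) * N0 * Cκ := by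
          refine Finset.sum_le_sum fun i _ => ?_
          rw [abs_mul, abs_of_pos (Real.exp_pos _), mul_assoc, mul_comm (N0 : ℝ)]
          exact mul_le_mul_of_nonneg_left (hl _) (Real.exp_pos _).le
      _ = (∑ i ∈ Finset.range M, Real.exp ((i : ℕ) * Real.log N0) * N0) * Cκ := by
          rw [← Finset.sum_mul, Fin.sum_univ_eq_sum_range (fun i : ℕ => Real.exp ((i : ℕ) * Real.log N0) * (N0 : ℝ))]
      _ ≤ 2 * (N0 : ℝ) ^ M * Cκ := mul_le_mul_of_nonneg_right (PSL_g2 N0 M hN) hC
      _ = 2 * Cκ * (N0 : ℝ) ^ M := by ring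
  · intro g
    exact PSL_le _ (hx g) S
  · intro g
    exact PSL_one _

end

end Pool.Agent.T1
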