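import Pool.Agent.helper52.T1.SpecS

/-!
# Row CNB of project T1 (MP_07c750_an): counting the cells
-/

set_option autoImplicit false

open scoped MatrixGroups ContDiff Topology UpperHalfPlane ComplexConjugate
open UpperHalfPlane MeasureTheory Filter Set

namespace Pool.Agent.T1

open Pool.Agent.RS Pool.Agent.MS Pool.Agent.HV
open Pool.Agent.EN (XG MG mkX mkM fl pr)

noncomputable section

theorem CNB_card {α β : Type} [DecidableEq β] (S : Finset α) (T : Finset β) (f : α → β) (hf : ∀ a ∈ S, f a ∈ T) (R : ℝ)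
    (hR : ∀ t ∈ T, ((S.filter (fun a => f a = t)).card : ℝ) ≤ R) : (S.card : ℝ) ≤ T.card * R := by
  rw [Finset.card_eq_sum_card_fiberwise (f := f) (t := T) (fun a ha => hf a ha)]
  push_cast
  calc ∑ b ∈ T, ((S.filter (fun a => f a = b)).card : ℝ) ≤ ∑ _b ∈ T, R := Finset.sum_le_sum fun b hb => hR b hb
    _ = T.card * R := by rw [Finset.sum_const, nsmul_eq_mul]

theorem CNB_int (S : Finset ℕ) (a L : ℝ) (hL : 0 ≤ L) (h : ∀ c ∈ S, a ≤ (c : ℝ) ∧ (c : ℝ) ≤ a + L) : (S.card : ℝ) ≤ L + 1 := by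
  have h1 : S.card ≤ (Finset.Icc ⌈a⌉ ⌊a + L⌋).card := by
    refine Finset.card_le_card_of_injOn (fun c : ℕ => (c : ℤ)) ?_ ?_
    · intro c hc
      obtain ⟨h2, h3⟩ := h c hc
      rw [Finset.coe_Icc, Set.mem_Icc]
      refine ⟨Int.ceil_le.2 ?_, Int.le_floor.2 ?_⟩
      · exact_mod_cast h2
      · exact_mod_cast h3
    · intro c _ c' _ h2
      have h3 : ((c : ℕ) : ℤ) = (c' : ℤ) := h2
      exact_mod_cast h3
  rw [Int.card_Icc] at h1
  have h2 : ((⌊a + L⌋ + 1 - ⌈a⌉).toNat : ℝ) ≤ L + 1 := by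
    rcases le_total 0 (⌊a + L⌋ + 1 - ⌈a⌉) with h3 | h3
    · have h4 : (((⌊a + L⌋ + 1 - ⌈a⌉).toNat : ℤ) : ℝ) = ((⌊a + L⌋ + 1 - ⌈a⌉ : ℤ) : ℝ) := by rw [Int.toNat_of_nonneg h3]
      have h5 : (((⌊a + L⌋ + 1 - ⌈a⌉).toNat : ℤ) : ℝ) = ((⌊a + L⌋ + 1 - ⌈a⌉).toNat : ℝ) := by norm_cast
      rw [← h5, h4]
      push_cast
      have h6 := Int.floor_le (a + L)
      have h7 := Int.le_ceil a
      linarith
    · rw [Int.toNat_of_nonpos h3]
      push_cast
      linarith
  have h3 : (S.card : ℝ) ≤ ((⌊a + L⌋ + 1 - ⌈a⌉).toNat : ℝ) := by exact_mod_cast h1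
  linarith

theorem CNB_exp {K : ℝ} {N0 : ℕ} (hK : 1 ≤ K) (hN : 2 ≤ N0) : Real.exp (Real.log (N0 / K)) = N0 / K ∧ Real.exp (-(Real.log (N0 / K))) = K / N0 := by
  have h1 : (0 : ℝ) < N0 := by
    have : 0 < N0 := by omega
    exact_mod_cast this
  have h2 : (0 : ℝ) < N0 / K := by positivity
  refine ⟨Real.exp_log h2, ?_⟩
  rw [Real.exp_neg, Real.exp_log h2, inv_div]

theorem CNB_Y1 (hGLC : RS.GLC_stmt) {Γ : Subgroup SL(2, ℝ)} {Cf : ℝ} (hCf : 0 < Cf)
    (hf : ∀ (b k : ℝ) (A : Finset SL(2, ℝ)) (g : SL(2, ℝ)) (T : Finset ℤ), 0 < b → b ≤ 1 / 100 → 0 ≤ k →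
      (∀ m ∈ T, ∃ v : ℝ, |v| ≤ 4 ∧ m ≤ v * Real.exp k ∧ v * Real.exp k < m + 1 ∧ g * lM v ∈ FW Γ A b (Real.exp (-k))) → (T.card : ℝ) ≤ Cf * A.card)
    (b K : ℝ) (N0 : ℕ) (A : Finset SL(2, ℝ)) (W : Set SL(2, ℝ)) (hb : 0 < b) (hb' : b ≤ 1 / 100) (hK : 1 ≤ K) (hKN : K ≤ N0) (hN : 2 ≤ N0)
    (hW : W ⊆ FW Γ A b (K / N0)) (p : ℕ → Bool) (h : SL(2, ℝ)) (hp : p 0 = true) : ((YC W N0 1 p h).card : ℝ) ≤ 3 * K * (Cf * A.card) := by
  classical
  obtain ⟨hexp, hexp'⟩ := CNB_exp hK hN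
  obtain ⟨-, -, -, -, -, -, -, -, -, -, hadd, -⟩ := hGLC
  have ha0 : aM 0 = 1 := by
    have := hadd 0 0
    rw [add_zero] at this
    exact left_eq_mul.1 this
  have hN0 : (0 : ℝ) < N0 := by
    have : 0 < N0 := by omega
    exact_mod_cast this
  have hk0 : 0 ≤ Real.log (N0 / K) := by
    apply Real.log_nonneg
    rw [le_div_iff₀ (by linarith)]
    linarith
  have hex : ∀ c ∈ YC W N0 1 p h, c < N0 ∧ ∃ v : ℝ, (c : ℝ) ≤ v * N0 ∧ v * N0 < (c : ℝ) + 1 ∧ h * lM (4 * v) ∈ W := by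
    intro c hc
    unfold YC at hc
    rw [Finset.mem_filter, Finset.mem_range, pow_one] at hc
    refine ⟨hc.1, ?_⟩
    obtain ⟨v, hv1, hv2, hv3⟩ := hc.2 0 (by norm_num) hp
    refine ⟨v, ?_, ?_, ?_⟩
    · simpa using hv1
    · simpa using hv2
    · rw [Nat.cast_zero, zero_mul, ha0, mul_one] at hv3
      exact hv3
  choose! hlt v hv1 hv2 hv3 using hex
  have key := CNB_card (YC W N0 1 p h) ((YC W N0 1 p h).image fun c => ⌊4 * v c * (N0 / K)⌋) (fun c => ⌊4 * v c * (N0 / K)⌋)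
    (fun c hc => Finset.mem_image_of_mem _ hc) (3 * K) ?_
  · have hT := hf b (Real.log (N0 / K)) A h ((YC W N0 1 p h).image fun c => ⌊4 * v c * (N0 / K)⌋) hb hb' hk0 ?_
    · calc ((YC W N0 1 p h).card : ℝ) ≤ _ := key
        _ ≤ (Cf * A.card) * (3 * K) := mul_le_mul_of_nonneg_right hT (by positivity)
        _ = 3 * K * (Cf * A.card) := by ring
    · intro m hm
      obtain ⟨c, hc, rfl⟩ := Finset.mem_image.1 hm
      have h1 := hv1 c hc
      have h2 := hv2 c hc
      have h3 : ((c : ℕ) : ℝ) + 1 ≤ N0 := by exact_mod_cast hlt c hc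
      have h4 : 0 ≤ v c := by
        by_contra hneg
        push Not at hneg
        have : v c * N0 < 0 := mul_neg_of_neg_of_pos hneg hN0
        have h5 : (0 : ℝ) ≤ c := Nat.cast_nonneg c
        linarith
      have h5 : v c < 1 := by
        by_contra hge
        push Not at hge
        have : (N0 : ℝ) ≤ v c * N0 := le_mul_of_one_le_left hN0.le hge
        linarith
      refine ⟨4 * v c, ?_, ?_, ?_, ?_⟩
      · rw [abs_of_nonneg (by linarith)]
        linarith
      · rw [hexp]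
        exact Int.floor_le _
      · rw [hexp]
        exact Int.lt_floor_add_one _
      · rw [hexp']
        exact hW (hv3 c hc)
  · intro m _
    refine (CNB_int _ (m * K / 4 - 1) (K / 4 + 1) (by linarith) ?_).trans (by linarith)
    intro c hc
    rw [Finset.mem_filter] at hc
    obtain ⟨hc, hm⟩ := hc
    have h1 := hv1 c hc
    have h2 := hv2 c hc
    have h3 : (m : ℝ) ≤ 4 * v c * (N0 / K) := by
      rw [← hm]
      exact Int.floor_le _
    have h4 : 4 * v c * (N0 / K) < m + 1 := by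
      rw [← hm]
      exact Int.lt_floor_add_one _
    have hK0 : 0 < K := by linarith
    have h5 : 4 * v c * (N0 / K) = 4 * (v c * N0) / K := by ring
    rw [h5, le_div_iff₀ hK0] at h3
    rw [h5, div_lt_iff₀ hK0] at h4
    constructor
    · linarith
    · linarith

theorem CNB_J1 (hGLC : RS.GLC_stmt) {Γ : Subgroup SL(2, ℝ)} {Cb : ℝ} (hCb : 0 < Cb)
    (hf : ∀ (b k : ℝ) (A : Finset SL(2, ℝ)) (y : SL(2, ℝ)) (T : Finset ℤ), 0 < b → b ≤ 1 / 100 → 0 ≤ k →
      (∀ m ∈ T, ∃ (X t u : ℝ) (e : SL(2, ℝ)), (e = 1 ∨ e = -1) ∧ |X| ≤ 4 ∧ |t| ≤ 3 / 2 ∧ |u| ≤ 1 / 4 ∧ m ≤ X * Real.exp k ∧ X * Real.exp k < m + 1 ∧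
        e * y * nM X * aM t * lM u * aM (-k) ∈ FW Γ A b (Real.exp (-k))) → (T.card : ℝ) ≤ Cb * A.card)
    (b K : ℝ) (N0 : ℕ) (A : Finset SL(2, ℝ)) (W : Set SL(2, ℝ)) (hb : 0 < b) (hb' : b ≤ 1 / 100) (hK : 1 ≤ K) (hKN : K ≤ N0) (hN : 2 ≤ N0)
    (hW : W ⊆ FW Γ A b (K / N0)) (q : ℕ → Bool) (g : SL(2, ℝ)) (hq : q 0 = true) : ((JN W N0 1 q g).card : ℝ) ≤ 6 * K * (Cb * A.card) := by
  classical
  obtain ⟨hexp, hexp'⟩ := CNB_exp hK hN
  obtain ⟨-, -, -, -, -, -, -, -, -, -, hadd, hnadd, hladd, -, -, -, -, hna, -, -⟩ := hGLC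
  have ha0 : aM 0 = 1 := by
    have := hadd 0 0
    rw [add_zero] at this
    exact left_eq_mul.1 this
  have hl0 : lM 0 = 1 := by
    have := hladd 0 0
    rw [add_zero] at this
    exact left_eq_mul.1 this
  have hN0 : (0 : ℝ) < N0 := by
    have : 0 < N0 := by omega
    exact_mod_cast this
  have hK0 : 0 < K := by linarith
  have hk0 : 0 ≤ Real.log (N0 / K) := by
    apply Real.log_nonneg
    rw [le_div_iff₀ (by linarith)]
    linarith
  have hex : ∀ j ∈ JN W N0 1 q g, j < N0 ∧ ∃ x : ℝ, (j : ℝ) ≤ x * N0 ∧ x * N0 < (j : ℝ) + 1 ∧ g * nM x * aM (-(Real.log N0)) ∈ W := by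
    intro j hj
    unfold JN at hj
    rw [Finset.mem_filter, Finset.mem_range, pow_one] at hj
    refine ⟨hj.1, ?_⟩
    obtain ⟨x, hx1, hx2, hx3⟩ := hj.2 0 (by norm_num) hq
    refine ⟨x, ?_, ?_, ?_⟩
    · simpa using hx1
    · simpa using hx2
    · simpa using hx3
  choose! hlt x hx1 hx2 hx3 using hex
  have hx01 : ∀ j ∈ JN W N0 1 q g, 0 ≤ x j ∧ x j < 1 := by
    intro j hj
    have h1 := hx1 j hj
    have h2 := hx2 j hj
    have h3 : ((j : ℕ) : ℝ) + 1 ≤ N0 := by exact_mod_cast hlt j hj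
    constructor
    · by_contra hneg
      push Not at hneg
      have : x j * N0 < 0 := mul_neg_of_neg_of_pos hneg hN0
      have h5 : (0 : ℝ) ≤ j := Nat.cast_nonneg j
      linarith
    · by_contra hge
      push Not at hge
      have : (N0 : ℝ) ≤ x j * N0 := le_mul_of_one_le_left hN0.le hge
      linarith
  -- first split according to the piece
  have key := CNB_card (JN W N0 1 q g) (Finset.range ⌈K⌉₊) (fun j => ⌊K * x j⌋₊) ?_ (3 * (Cb * A.card)) ?_
  · rw [Finset.card_range] at key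
    have h1 : ((⌈K⌉₊ : ℕ) : ℝ) ≤ 2 * K := by
      have := Nat.ceil_lt_add_one hK0.le
      linarith
    calc ((JN W N0 1 q g).card : ℝ) ≤ _ := key
      _ ≤ (2 * K) * (3 * (Cb * A.card)) := mul_le_mul_of_nonneg_right h1 (by positivity)
      _ = 6 * K * (Cb * A.card) := by ring
  · intro j hj
    obtain ⟨h1, h2⟩ := hx01 j hj
    rw [Finset.mem_range, Nat.floor_lt (by positivity)]
    have h3 : K * x j < K := by nlinarith
    exact lt_of_lt_of_le h3 (Nat.le_ceil K)
  · intro i _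
    set S : Finset ℕ := (JN W N0 1 q g).filter (fun j => ⌊K * x j⌋₊ = i) with hS
    have hSm : ∀ j ∈ S, j ∈ JN W N0 1 q g ∧ (i : ℝ) ≤ K * x j ∧ K * x j < i + 1 := by
      intro j hj
      rw [hS, Finset.mem_filter] at hj
      obtain ⟨hj1, hj2⟩ := hj
      obtain ⟨h1, h2⟩ := hx01 j hj1
      refine ⟨hj1, ?_, ?_⟩
      · rw [← hj2]
        exact Nat.floor_le (by positivity)
      · rw [← hj2]
        exact Nat.lt_floor_add_one _
    have key2 := CNB_card S (S.image fun j => ⌊(K * x j - i) * (N0 / K)⌋) (fun j => ⌊(K * x j - i) * (N0 / K)⌋)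
      (fun j hj => Finset.mem_image_of_mem _ hj) 3 ?_
    · have hT := hf b (Real.log (N0 / K)) A (g * aM (-(Real.log K)) * nM i) (S.image fun j => ⌊(K * x j - i) * (N0 / K)⌋) hb hb' hk0 ?_
      · calc (S.card : ℝ) ≤ _ := key2
          _ ≤ (Cb * A.card) * 3 := mul_le_mul_of_nonneg_right hT (by norm_num)
          _ = 3 * (Cb * A.card) := by ring
      · intro m hm
        obtain ⟨j, hj, rfl⟩ := Finset.mem_image.1 hm
        obtain ⟨hj1, hj2, hj3⟩ := hSm j hj
        refine ⟨K * x j - i, 0, 0, 1, Or.inl rfl, ?_, by norm_num, by norm_num, ?_, ?_, ?_⟩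
        · rw [abs_of_nonneg (by linarith)]
          linarith
        · rw [hexp]
          exact Int.floor_le _
        · rw [hexp]
          exact Int.lt_floor_add_one _
        · rw [hexp', ha0, hl0, mul_one, mul_one, one_mul]
          have e1 : nM (i : ℝ) * nM (K * x j - i) = nM (K * x j) := by
            rw [← hnadd]
            congr 1
            ring
          have e2 : aM (-(Real.log K)) * nM (K * x j) = nM (x j) * aM (-(Real.log K)) := by
            rw [hna, neg_neg, Real.exp_log hK0]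
          have e3 : aM (-(Real.log K)) * aM (-(Real.log (N0 / K))) = aM (-(Real.log N0)) := by
            rw [← hadd]
            congr 1
            rw [Real.log_div hN0.ne' hK0.ne']
            ring
          have e4 : g * aM (-(Real.log K)) * nM (i : ℝ) * nM (K * x j - i) * aM (-(Real.log (N0 / K))) = g * nM (x j) * aM (-(Real.log N0)) := by
            rw [mul_assoc (g * aM (-(Real.log K))), e1, mul_assoc g, e2, ← e3]
            simp only [mul_assoc]
          rw [e4]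
          exact hW (hx3 j hj1)
    · intro m _
      refine (CNB_int _ (m + i * (N0 / K) - 1) 2 (by norm_num) ?_).trans (by norm_num)
      intro j hj
      rw [Finset.mem_filter] at hj
      obtain ⟨hj, hm⟩ := hj
      obtain ⟨hj1, hj2, hj3⟩ := hSm j hj
      have h1 := hx1 j hj1
      have h2 := hx2 j hj1
      have h3 : (m : ℝ) ≤ (K * x j - i) * (N0 / K) := by
        rw [← hm]
        exact Int.floor_le _
      have h4 : (K * x j - i) * (N0 / K) < m + 1 := by
        rw [← hm]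
        exact Int.lt_floor_add_one _
      have h5 : (K * x j - i) * (N0 / K) = x j * N0 - i * (N0 / K) := by
        field_simp
      rw [h5] at h3 h4
      constructor
      · linarith
      · linarith

theorem CNB_Kc (p : ℕ → Bool) (k : ℕ) : Kc p 0 (1 + k) = (if p 0 = true then 1 else 0) + Kc (sh 1 p) 0 k ∧ Kc (sh 1 p) 0 k ≤ k := by
  classical
  unfold Kc
  constructor
  · rw [Finset.card_filter, Finset.card_filter, Nat.Ico_zero_eq_range, Nat.Ico_zero_eq_range, add_comm 1 k, Finset.sum_range_succ', add_comm]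
    congr 1
    refine Finset.sum_congr rfl fun i _ => ?_
    unfold sh
    rw [add_comm i 1]
  · refine (Finset.card_filter_le _ _).trans ?_
    rw [Nat.card_Ico]
    omega

theorem CNB_div {N c c' : ℕ} (h1 : c / N = c' / N) (h2 : c % N = c' % N) : c = c' := by
  rw [← Nat.div_add_mod c N, ← Nat.div_add_mod c' N, h1, h2]

theorem CNB_proof (hCTF : IR.CTF_stmt) (hCTB : IR.CTB_stmt) (hYSP : YSP_stmt) (hJSP : JSP_stmt) (hGLC : RS.GLC_stmt) : CNB_stmt := by
  classical
  intro Γ hΓ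
  obtain ⟨Cf, hCf, hf⟩ := hCTF Γ hΓ
  obtain ⟨Cb, hCb, hfb⟩ := hCTB Γ hΓ
  refine ⟨1 + 3 * Cf + 6 * Cb, by linarith, ?_⟩
  intro b K N0 A W hb hb' hK hKN hN hW k
  have hA0 : (0 : ℝ) ≤ A.card := Nat.cast_nonneg _
  have hN0 : (0 : ℝ) ≤ N0 := Nat.cast_nonneg _
  set B : ℝ := (1 + 3 * Cf + 6 * Cb) * K * A.card with hB
  have hB0 : 0 ≤ B := by positivity
  have hY1 : ∀ (p : ℕ → Bool) (h : SL(2, ℝ)), ((YC W N0 1 p h).card : ℝ) ≤ B ^ (if p 0 = true then 1 else 0) * (N0 : ℝ) ^ (1 - (if p 0 = true then 1 else 0)) := by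
    intro p h
    by_cases hp : p 0 = true
    · rw [if_pos hp, pow_one, Nat.sub_self, pow_zero, mul_one]
      refine (CNB_Y1 hGLC hCf hf b K N0 A W hb hb' hK hKN hN hW p h hp).trans ?_
      calc 3 * K * (Cf * A.card) = (3 * Cf) * (K * A.card) := by ring
        _ ≤ (1 + 3 * Cf + 6 * Cb) * (K * A.card) := mul_le_mul_of_nonneg_right (by linarith) (by positivity)
        _ = B := by rw [hB, mul_assoc]
    · rw [if_neg hp, pow_zero, one_mul, Nat.sub_zero, pow_one]
      have h1 : (YC W N0 1 p h).card ≤ N0 := by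
        unfold YC
        refine (Finset.card_filter_le _ _).trans ?_
        rw [Finset.card_range, pow_one]
      exact_mod_cast h1
  have hJ1 : ∀ (p : ℕ → Bool) (h : SL(2, ℝ)), ((JN W N0 1 p h).card : ℝ) ≤ B ^ (if p 0 = true then 1 else 0) * (N0 : ℝ) ^ (1 - (if p 0 = true then 1 else 0)) := by
    intro p h
    by_cases hp : p 0 = true
    · rw [if_pos hp, pow_one, Nat.sub_self, pow_zero, mul_one]
      refine (CNB_J1 hGLC hCb hfb b K N0 A W hb hb' hK hKN hN hW p h hp).trans ?_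
      calc 6 * K * (Cb * A.card) = (6 * Cb) * (K * A.card) := by ring
        _ ≤ (1 + 3 * Cf + 6 * Cb) * (K * A.card) := mul_le_mul_of_nonneg_right (by linarith) (by positivity)
        _ = B := by rw [hB, mul_assoc]
    · rw [if_neg hp, pow_zero, one_mul, Nat.sub_zero, pow_one]
      have h1 : (JN W N0 1 p h).card ≤ N0 := by
        unfold JN
        refine (Finset.card_filter_le _ _).trans ?_
        rw [Finset.card_range, pow_one]
      exact_mod_cast h1
  have hcomb : ∀ (p : ℕ → Bool) (k : ℕ), (B ^ (if p 0 = true then 1 else 0) * (N0 : ℝ) ^ (1 - (if p 0 = true then 1 else 0))) *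
      (B ^ Kc (sh 1 p) 0 k * (N0 : ℝ) ^ (k - Kc (sh 1 p) 0 k)) = B ^ Kc p 0 (1 + k) * (N0 : ℝ) ^ (1 + k - Kc p 0 (1 + k)) := by
    intro p k
    obtain ⟨h1, h2⟩ := CNB_Kc p k
    have h3 : 1 + k - Kc p 0 (1 + k) = (1 - (if p 0 = true then 1 else 0)) + (k - Kc (sh 1 p) 0 k) := by
      rw [h1]
      split_ifs <;> omega
    rw [h3, h1, pow_add, pow_add]
    ring
  induction k with
  | zero =>
    intro p h
    have h1 : Kc p 0 0 = 0 := by
      unfold Kc
      simp
    rw [h1, pow_zero, Nat.sub_self, pow_zero, mul_one]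
    constructor
    · have : (YC W N0 0 p h).card ≤ 1 := by
        unfold YC
        refine (Finset.card_filter_le _ _).trans ?_
        rw [Finset.card_range, pow_zero]
      exact_mod_cast this
    · have : (JN W N0 0 p h).card ≤ 1 := by
        unfold JN
        refine (Finset.card_filter_le _ _).trans ?_
        rw [Finset.card_range, pow_zero]
      exact_mod_cast this
  | succ k ih =>
    intro p h
    rw [add_comm k 1, ← hcomb p k]
    have hN1 : 1 ≤ N0 := by omega
    constructor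
    · have key := CNB_card (YC W N0 (1 + k) p h) (YC W N0 1 p h) (fun c => c / N0 ^ k)
        (fun c hc => (hYSP W N0 1 k p h c hN1 hc).1) (B ^ Kc (sh 1 p) 0 k * (N0 : ℝ) ^ (k - Kc (sh 1 p) 0 k)) ?_
      · exact key.trans (mul_le_mul_of_nonneg_right (hY1 p h) (by positivity))
      · intro t _
        refine le_trans ?_ (ih (sh 1 p) (h * lM (4 * (((t : ℕ) : ℝ) / N0 ^ 1)) * aM ((1 : ℕ) * Real.log N0))).1
        have h1 : ((YC W N0 (1 + k) p h).filter (fun c => c / N0 ^ k = t)).card ≤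
            (YC W N0 k (sh 1 p) (h * lM (4 * (((t : ℕ) : ℝ) / N0 ^ 1)) * aM ((1 : ℕ) * Real.log N0))).card := by
          refine Finset.card_le_card_of_injOn (fun c => c % N0 ^ k) ?_ ?_
          · intro c hc
            rw [Finset.mem_coe, Finset.mem_filter] at hc
            have := (hYSP W N0 1 k p h c hN1 hc.1).2
            rw [hc.2] at this
            exact this
          · intro c hc c' hc' hcc
            rw [Finset.mem_coe, Finset.mem_filter] at hc hc'
            exact CNB_div (hc.2.trans hc'.2.symm) hcc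
        exact_mod_cast h1
    · have key := CNB_card (JN W N0 (1 + k) p h) (JN W N0 k (sh 1 p) h) (fun c => c / N0 ^ 1)
        (fun c hc => (hJSP W N0 1 k p h c hN1 hc).1) (B ^ (if p 0 = true then 1 else 0) * (N0 : ℝ) ^ (1 - (if p 0 = true then 1 else 0))) ?_
      · rw [mul_comm (B ^ (if p 0 = true then 1 else 0) * (N0 : ℝ) ^ (1 - (if p 0 = true then 1 else 0)))]
        exact key.trans (mul_le_mul_of_nonneg_right (ih (sh 1 p) h).2 (by positivity))
      · intro t _
        refine le_trans ?_ (hJ1 p (h * nM (((t : ℕ) : ℝ) / N0 ^ k) * aM (-(k * Real.log N0))))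
        have h1 : ((JN W N0 (1 + k) p h).filter (fun c => c / N0 ^ 1 = t)).card ≤
            (JN W N0 1 p (h * nM (((t : ℕ) : ℝ) / N0 ^ k) * aM (-(k * Real.log N0)))).card := by
          refine Finset.card_le_card_of_injOn (fun c => c % N0 ^ 1) ?_ ?_
          · intro c hc
            rw [Finset.mem_coe, Finset.mem_filter] at hc
            have := (hJSP W N0 1 k p h c hN1 hc.1).2
            rw [hc.2] at this
            exact this
          · intro c hc c' hc' hcc
            rw [Finset.mem_coe, Finset.mem_filter] at hc hc'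
            exact CNB_div (hc.2.trans hc'.2.symm) hcc
        exact_mod_cast h1

end

end Pool.Agent.T1
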